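import Mathlib

set_option autoImplicit false

namespace Pool.Agent.H.MP_f72ff1_an

open MeasureTheory Metric Set Filter Topology
open scoped ENNReal Pointwise

variable {E : Type} [NormedAddCommGroup E] [InnerProductSpace ℝ E] [FiniteDimensional ℝ E]
  [MeasurableSpace E] [BorelSpace E] [Nontrivial E]

theorem shell {a b : ℝ} (h0 : 0 ≤ a) (h : a < b) :
    0 < volume.real (ball (0 : E) b \ closedBall 0 a) := by
  obtain ⟨x, hx⟩ := exists_norm_eq E (c := (a + b) / 2) (by linarith)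
  refine ENNReal.toReal_pos ((isOpen_ball.sdiff isClosed_closedBall).measure_ne_zero _
    ⟨x, ?_, ?_⟩) ((measure_mono sdiff_subset).trans_lt measure_ball_lt_top).ne
  · rw [mem_ball_zero_iff]; linarith
  · rw [mem_closedBall_zero_iff]; linarith

theorem geo : ∃ c > 0, ∀ u : E, ‖u‖ ≤ 1 / 2 → ∀ δ : ℝ, 0 < δ → δ ≤ 1 →
    c * δ ^ Module.finrank ℝ E ≤ (volume : Measure (WithLp 2 (E × E))).toSphere.real
      {w | ‖w.1.fst - u‖ ≤ δ} := by
  let Z := ball (0 : E) (1 / 2) \ closedBall 0 (1 / 4)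
  have Zo : IsOpen Z := isOpen_ball.sdiff isClosed_closedBall
  refine ⟨(1 / 8) ^ Module.finrank ℝ E * volume.real (ball (0 : E) 1) * volume.real Z,
    mul_pos (mul_pos (by positivity) (ENNReal.toReal_pos (measure_ball_pos _ _ one_pos).ne'
      measure_ball_lt_top.ne)) (shell (by norm_num) (by norm_num)), fun u hu δ δ0 δ1 => ?_⟩
  obtain ⟨a, a0, a1, a2⟩ : ∃ a : ℝ, 0 < a ∧ a ≤ 4 / 3 ∧ a ^ 2 * (1 - ‖u‖ ^ 2) = 1 := by
    have h : 3 / 4 ≤ 1 - ‖u‖ ^ 2 := by nlinarith [norm_nonneg u]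
    have h1 : 3 / 4 ≤ √(1 - ‖u‖ ^ 2) := Real.le_sqrt_of_sq_le (by linarith)
    refine ⟨(√(1 - ‖u‖ ^ 2))⁻¹, by positivity, inv_le_of_inv_le₀ (by norm_num) (by linarith), ?_⟩
    rw [inv_pow, Real.sq_sqrt (by linarith), inv_mul_cancel₀ (by linarith)]
  let P : Set (E × E) := {p | p.2 ∈ Z ∧ p.1 ∈ ball ((a * ‖p.2‖) • u) (δ / 8)}
  have Po : IsOpen P := (Zo.preimage continuous_snd).inter (isOpen_lt (by fun_prop) (by fun_prop))
  have h1 : volume P = volume (ball (0 : E) (δ / 8)) * volume Z := by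
    rw [Measure.volume_eq_prod, Measure.prod_apply_symm Po.measurableSet,
      ← setLIntegral_const, ← lintegral_indicator Zo.measurableSet]
    refine lintegral_congr fun z => ?_
    by_cases hz : z ∈ Z
    · rw [indicator_of_mem hz, ← Measure.addHaar_ball_center _ ((a * ‖z‖) • u)]
      congr
      ext y
      simp [P, hz]
    · simp [P, hz]
  refine (ENNReal.ofReal_le_iff_le_toReal (measure_ne_top _ _)).1 ?_
  rw [Measure.toSphere_apply' _ (isClosed_le (by fun_prop) (by fun_prop)).measurableSet]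
  refine le_trans ?_ (le_mul_of_one_le_left' (by exact_mod_cast Module.finrank_pos))
  rw [← (WithLp.volume_preserving_symm_measurableEquiv_toLp_prod E E).symm.measure_preimage_equiv]
  refine le_trans (le_of_eq ?_) (measure_mono (s := P) ?_)
  · rw [h1, Measure.addHaar_ball_of_pos _ _ (by positivity : 0 < δ / 8),
      ← ofReal_measureReal (s := Z) ((measure_mono sdiff_subset).trans_lt measure_ball_lt_top).ne,
      ← ofReal_measureReal (s := ball (0 : E) 1) measure_ball_lt_top.ne,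
      ← ENNReal.ofReal_mul (by positivity), ← ENNReal.ofReal_mul (by positivity)]
    congr 1
    ring
  rintro ⟨y, z⟩ ⟨⟨z1, z2⟩, hy⟩
  simp only [mem_closedBall_zero_iff, not_le, mem_ball_iff_norm, sub_zero] at z1 z2 hy
  obtain ⟨w, hw⟩ : ∃ w, w = WithLp.toLp 2 (y, z) := ⟨_, rfl⟩
  have b1 : ‖WithLp.toLp 2 ((a * ‖z‖) • u, z)‖ = a * ‖z‖ := by
    rw [← sq_eq_sq₀ (norm_nonneg _) (by positivity), WithLp.prod_norm_sq_eq_of_L2]
    simp only [WithLp.toLp_fst, WithLp.toLp_snd, norm_smul, Real.norm_eq_abs, mul_pow, sq_abs]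
    linear_combination (-‖z‖ ^ 2) * a2
  have b2 : |‖w‖ - a * ‖z‖| < δ / 8 := by
    rw [← b1]
    refine (abs_norm_sub_norm_le _ _).trans_lt (hy.trans_eq' ?_)
    rw [hw, ← WithLp.toLp_sub, Prod.mk_sub_mk, sub_self, WithLp.norm_toLp_fst]
  have b3 : 1 / 4 < ‖w‖ := z2.trans_le (by simpa [hw] using WithLp.norm_snd_le _ w)
  have b4 : 0 < ‖w‖ := by linarith
  refine ⟨‖w‖, ⟨b4, by nlinarith [(abs_lt.1 b2).2]⟩, ‖w‖⁻¹ • w,
    ⟨⟨_, by simp [norm_smul, b4.ne']⟩, ?_, rfl⟩, (smul_inv_smul₀ b4.ne' w).trans hw⟩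
  have e : (‖w‖⁻¹ • w).fst - u = ‖w‖⁻¹ • ((y - (a * ‖z‖) • u) - (‖w‖ - a * ‖z‖) • u) := by
    rw [sub_smul, sub_sub, add_sub_cancel, smul_sub, smul_smul, inv_mul_cancel₀ b4.ne', one_smul]
    congr 1
    rw [hw]
    rfl
  change ‖(‖w‖⁻¹ • w).fst - u‖ ≤ δ
  rw [e, norm_smul, norm_inv, norm_norm, inv_mul_le_iff₀ b4]
  refine (norm_sub_le _ _).trans ?_
  rw [norm_smul, Real.norm_eq_abs]
  nlinarith [mul_le_mul b2.le hu (norm_nonneg _) (by positivity)]

end Pool.Agent.H.MP_f72ff1_an
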