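import Pool.Agent.H.MP_f72ff1_an.A

set_option autoImplicit false

namespace Pool.Agent.H.MP_f72ff1_an

open MeasureTheory Metric Set Filter Topology
open scoped ENNReal NNReal Pointwise ContDiff

variable {E : Type} [NormedAddCommGroup E] [InnerProductSpace ℝ E] [FiniteDimensional ℝ E]
  [MeasurableSpace E] [BorelSpace E] [Nontrivial E]

theorem low : ∃ c > 0, ∀ f g : E → ℝ, Continuous f → Continuous g → 0 ≤ f → 0 ≤ g →
    ∀ t a : ℝ, 1 ≤ t → 0 ≤ a → (∀ x, ‖x‖ ≤ 1 → 1 ≤ f x) → (∀ x, ‖x‖ ≤ 2 * t → a ≤ g x) →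
    ∀ x, ‖x‖ ≤ t / 2 → c * (t ^ Module.finrank ℝ E)⁻¹ * a ≤
      ⨍ w : sphere (0 : WithLp 2 (E × E)) 1, f (x - t • w.1.fst) * g (x - t • w.1.snd)
        ∂(volume : Measure (WithLp 2 (E × E))).toSphere := by
  obtain ⟨c, c0, hc⟩ := geo (E := E)
  obtain ⟨σ, hσ⟩ : ∃ σ, σ = (volume : Measure (WithLp 2 (E × E))).toSphere := ⟨_, rfl⟩
  have : IsFiniteMeasure σ := hσ ▸ inferInstance
  have s0 : 0 < σ.real univ := ENNReal.toReal_pos
    (Measure.measure_univ_ne_zero.2 (hσ ▸ Measure.toSphere_ne_zero _)) (measure_ne_top _ _)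
  refine ⟨(σ.real univ)⁻¹ * c, by positivity, fun f g f0 g0 f1 g1 t a t1 a0 f2 g2 x hx => ?_⟩
  have t0 : 0 < t := by linarith
  have h := hc (t⁻¹ • x) (by
    rw [norm_smul, norm_inv, Real.norm_of_nonneg t0.le, inv_mul_le_iff₀ t0]; linarith)
    t⁻¹ (by positivity) (inv_le_one_of_one_le₀ t1)
  rw [← hσ] at h ⊢
  rw [average_eq, smul_eq_mul, mul_assoc, mul_assoc, ← mul_assoc c, ← inv_pow]
  refine mul_le_mul_of_nonneg_left ((mul_le_mul_of_nonneg_right h a0).trans ?_) (by positivity)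
  have hi : Integrable (fun w : sphere (0 : WithLp 2 (E × E)) 1 =>
      f (x - t • w.1.fst) * g (x - t • w.1.snd)) σ :=
    Continuous.integrable_of_hasCompactSupport (by fun_prop) (HasCompactSupport.of_compactSpace _)
  refine le_trans ?_ (setIntegral_le_integral
    (s := {w | ‖w.1.fst - t⁻¹ • x‖ ≤ t⁻¹}) hi (.of_forall fun w => mul_nonneg (f1 _) (g1 _)))
  rw [mul_comm]
  refine setIntegral_ge_of_const_le_real (isClosed_le (by fun_prop) (by fun_prop)).measurableSet
    (measure_ne_top _ _) (fun w hw => (g2 _ ?_).trans (le_mul_of_one_le_left (g1 _) (f2 _ ?_)))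
    hi.integrableOn
  · refine (norm_sub_le _ _).trans ?_
    rw [norm_smul, Real.norm_of_nonneg t0.le]
    nlinarith [WithLp.norm_snd_le _ w.1, norm_eq_of_mem_sphere w]
  · rw [← smul_inv_smul₀ t0.ne' x, ← smul_sub, norm_smul, Real.norm_of_nonneg t0.le, norm_sub_rev,
      ← le_div_iff₀' t0, one_div]
    exact hw

theorem main {q : ℝ} (hq : 1 ≤ q) (C : ℝ≥0)
    (h : ∀ f g : E → ℝ, ContDiff ℝ ∞ f → HasCompactSupport f → ContDiff ℝ ∞ g →
      HasCompactSupport g → (∫⁻ x, (⨆ l : ℤ, ‖⨍ w : sphere (0 : WithLp 2 (E × E)) 1,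
        f (x - (2 : ℝ) ^ l • w.1.fst) * g (x - (2 : ℝ) ^ l • w.1.snd)
        ∂(volume : Measure (WithLp 2 (E × E))).toSphere‖ₑ) ^ (q / (q + 1))) ^ ((q + 1) / q) ≤
        C * eLpNorm f 1 volume * eLpNorm g (ENNReal.ofReal q) volume) : False := by
  obtain ⟨c, c0, hc⟩ := low (E := E)
  obtain ⟨d, hd⟩ : ∃ d, d = Module.finrank ℝ E := ⟨_, rfl⟩
  have q0 : 0 < q := by linarith
  let b : ℕ → ContDiffBump (0 : E) := fun k => ⟨2 * 2 ^ k, 4 * 2 ^ k, by positivity, by
    gcongr; norm_num⟩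
  let a : ℕ → ℝ := fun k => ((2 ^ k) ^ d)⁻¹ ^ q⁻¹
  have a0 : ∀ k, 0 < a k := fun k => by positivity
  let Z := ball (0 : E) (1 / 2) \ closedBall 0 (1 / 4)
  have Z0 : 0 < volume.real Z := shell (by norm_num) (by norm_num)
  have Z1 : volume Z = ENNReal.ofReal (volume.real Z) := (ofReal_measureReal
    ((measure_mono sdiff_subset).trans_lt measure_ball_lt_top).ne).symm
  let S : ℕ → Set E := fun k => (2 ^ k : ℝ) • Z
  have S1 : ∀ k, ∀ x ∈ S k, 2 ^ k / 4 < ‖x‖ ∧ ‖x‖ < 2 ^ k / 2 := by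
    rintro k _ ⟨z, ⟨z1, z2⟩, rfl⟩
    simp only [mem_closedBall_zero_iff, not_le, mem_ball_zero_iff] at z1 z2
    have : (0 : ℝ) < 2 ^ k := by positivity
    simp only [norm_smul, Real.norm_of_nonneg this.le]
    constructor <;> nlinarith
  have S2 : ∀ k, MeasurableSet (S k) := fun k =>
    (isOpen_ball.sdiff isClosed_closedBall).measurableSet.const_smul₀ _
  have S3 : Pairwise (Function.onFun Disjoint S) := (pairwise_disjoint_on _).2 fun i j hij =>
    disjoint_left.2 fun x hi hj => by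
      have : (2 : ℝ) ^ (i + 1) ≤ 2 ^ j := pow_le_pow_right₀ one_le_two hij
      rw [pow_succ] at this
      linarith [(S1 i x hi).2, (S1 j x hj).1]
  obtain ⟨v, hv⟩ : ∃ v : ℝ≥0, volume (ball (0 : E) 1) = v :=
    ⟨_, (ENNReal.coe_toNNReal measure_ball_lt_top.ne).symm⟩
  obtain ⟨F, hF⟩ : ∃ F : ℝ≥0, eLpNorm (b 0) 1 volume = F := ⟨_, (ENNReal.coe_toNNReal
    ((b 0).continuous.memLp_of_hasCompactSupport (b 0).hasCompactSupport).2.ne).symm⟩
  have g1 : ∀ k, eLpNorm (a k • (b k : E → ℝ)) (ENNReal.ofReal q) volume ≤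
      ENNReal.ofReal ((4 ^ d * v) ^ q⁻¹) := fun k => by
    refine (eLpNorm_mono (g := (ball 0 (4 * 2 ^ k)).indicator fun _ => a k) fun x => ?_).trans ?_
    · by_cases hx : x ∈ ball (0 : E) (4 * 2 ^ k)
      · rw [indicator_of_mem hx, Pi.smul_apply, norm_smul]
        exact mul_le_of_le_one_right (norm_nonneg _)
          ((Real.norm_of_nonneg (b k).nonneg).trans_le (b k).le_one)
      · rw [Pi.smul_apply, (b k).zero_of_le_dist (not_lt.1 hx)]
        simp
    · rw [eLpNorm_indicator_const measurableSet_ball (by simpa) (by simp),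
        Measure.addHaar_ball_of_pos _ _ (by positivity), hv, ← hd, Real.enorm_eq_ofReal (a0 k).le,
        ← ENNReal.ofReal_coe_nnreal, ← ENNReal.ofReal_mul (by positivity),
        ENNReal.toReal_ofReal q0.le, ENNReal.ofReal_rpow_of_nonneg (by positivity) (by positivity),
        ← ENNReal.ofReal_mul (a0 k).le, one_div, ← Real.mul_rpow (by positivity) (by positivity)]
      refine le_of_eq (congrArg (fun s => ENNReal.ofReal (s ^ q⁻¹)) ?_)
      rw [mul_pow]
      field_simp
  obtain ⟨κ, κ0, hκ⟩ : ∃ κ, 0 < κ ∧ κ = c ^ (q / (q + 1)) * volume.real Z := ⟨_, by positivity, rfl⟩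
  have key : ∀ N : ℕ, (N * κ) ^ ((q + 1) / q) ≤ C * F * (N * (4 ^ d * v) ^ q⁻¹) := fun N => by
    let g : E → ℝ := ∑ k ∈ Finset.range N, a k • (b k : E → ℝ)
    have g2 : ContDiff ℝ ∞ g := by
      rw [show g = fun x => ∑ k ∈ Finset.range N, a k • b k x from Finset.sum_fn _ _]
      exact ContDiff.sum fun k _ => (b k).contDiff.const_smul _
    have g3 : ∀ k, 0 ≤ a k • (b k : E → ℝ) := fun k x => mul_nonneg (a0 k).le (b k).nonneg
    have := h (b 0) g (b 0).contDiff (b 0).hasCompactSupport g2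
      (HasCompactSupport.finset_sum fun k _ => (b k).hasCompactSupport.smul_left)
    rw [← ENNReal.ofReal_le_ofReal_iff (by positivity), ← ENNReal.ofReal_rpow_of_nonneg
      (by positivity) (by positivity)]
    refine le_trans (ENNReal.rpow_le_rpow ?_ (by positivity)) (this.trans ?_)
    · refine le_trans ?_ (setLIntegral_le_lintegral (⋃ k ∈ Finset.range N, S k) _)
      rw [lintegral_biUnion_finset (fun i _ j _ e => S3 e) fun k _ => S2 k,
        ENNReal.ofReal_mul (by positivity), ENNReal.ofReal_natCast, ← nsmul_eq_mul]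
      nth_rw 1 [← Finset.card_range N]
      refine Finset.card_nsmul_le_sum _ _ _ fun k hk => le_trans (le_of_eq ?_)
        (setLIntegral_mono' (S2 k) (f := fun _ => ENNReal.ofReal
          (c * ((2 ^ k) ^ d)⁻¹ * a k) ^ (q / (q + 1))) fun x hx => ENNReal.rpow_le_rpow
          (le_iSup_of_le (k : ℤ) ((ENNReal.ofReal_le_ofReal ?_).trans (Real.ofReal_le_enorm _)))
          (by positivity))
      · have e : ((2 ^ k) ^ d : ℝ)⁻¹ * a k = ((2 ^ k) ^ d)⁻¹ ^ ((q + 1) / q) := by
          rw [add_div, div_self q0.ne', Real.rpow_add (by positivity), Real.rpow_one, one_div]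
        rw [setLIntegral_const, Measure.addHaar_smul, Z1, ← hd, abs_of_pos (by positivity),
          ENNReal.ofReal_rpow_of_nonneg (by have := a0 k; positivity) (by positivity),
          ← ENNReal.ofReal_mul (by positivity), ← ENNReal.ofReal_mul (by have := a0 k; positivity),
          mul_assoc c, e, Real.mul_rpow c0.le (by positivity), ← Real.rpow_mul (by positivity),
          div_mul_div_cancel₀ q0.ne', div_self (by positivity), Real.rpow_one, hκ]
        congr 1
        field_simp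
      · rw [zpow_natCast, hd]
        refine hc _ _ (b 0).continuous g2.continuous (b 0).nonneg' (Finset.sum_nonneg fun k _ => g3 k)
          _ _ (one_le_pow₀ one_le_two) (a0 k).le (fun y hy => ((b 0).one_of_mem_closedBall
            (mem_closedBall_zero_iff.2 (hy.trans (by simp [b])))).ge) (fun y hy => ?_) x
          (S1 k x hx).2.le
        refine le_trans (le_of_eq ?_) (Finset.single_le_sum (fun k _ => g3 k) hk y)
        rw [Pi.smul_apply, (b k).one_of_mem_closedBall (mem_closedBall_zero_iff.2 hy), smul_eq_mul,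
          mul_one]
    · rw [hF, ENNReal.ofReal_mul (by positivity), ← NNReal.coe_mul, ENNReal.ofReal_coe_nnreal,
        ENNReal.coe_mul, ENNReal.ofReal_mul (by positivity), ENNReal.ofReal_natCast, ← nsmul_eq_mul]
      gcongr
      refine (eLpNorm_sum_le (fun k _ => ((b k).continuous.const_smul _).aestronglyMeasurable)
        (by simpa)).trans ((Finset.sum_le_card_nsmul _ _ _ fun k _ => g1 k).trans (by simp))
  obtain ⟨N, h1, h2⟩ := ((eventually_gt_atTop 0).and (((tendsto_rpow_atTop (inv_pos.2 q0)).comp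
    (tendsto_natCast_atTop_atTop.atTop_mul_const κ0)).eventually_gt_atTop
      (C * F * (4 ^ d * v) ^ q⁻¹ / κ))).exists
  have h3 := key N
  have N0 : (0 : ℝ) < N := by exact_mod_cast h1
  rw [add_div, div_self q0.ne', Real.rpow_add (by positivity), Real.rpow_one, one_div] at h3
  rw [div_lt_iff₀ κ0, Function.comp] at h2
  nlinarith

end Pool.Agent.H.MP_f72ff1_an
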